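import Pool.Agent.Helper3.HW.Defs

/-! # Basic lemmas -/

set_option autoImplicit false

open Finset Filter Topology

namespace Pool.Agent.Helper3.HW

variable {n d : ℕ}

@[simp] theorem pos_zero (l : List (Step n)) : pos l 0 = 0 := by simp [pos]

@[simp] theorem pos_length (l : List (Step n)) : pos l l.length = ept l := by simp [pos, ept]

@[simp] theorem ept_nil : ept ([] : List (Step n)) = 0 := by simp [ept]

theorem ept_cons (s : Step n) (l : List (Step n)) : ept (s :: l) = vec s + ept l := by simp [ept]

theorem ept_append (a b : List (Step n)) : ept (a ++ b) = ept a + ept b := by simp [ept]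

theorem pos_of_length_le (l : List (Step n)) {i : ℕ} (hi : l.length ≤ i) : pos l i = ept l := by
  simp [pos, ept, List.take_of_length_le hi]

theorem pos_append_left (a b : List (Step n)) {i : ℕ} (hi : i ≤ a.length) :
    pos (a ++ b) i = pos a i := by
  simp [pos, List.take_append_of_le_length hi]

theorem pos_append_right (a b : List (Step n)) (i : ℕ) :
    pos (a ++ b) (a.length + i) = ept a + pos b i := by
  simp [pos, ept, List.take_length_add_append]

theorem pos_succ (l : List (Step n)) {i : ℕ} (hi : i < l.length) :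
    pos l (i + 1) = pos l i + vec (l[i]) := by
  simp only [pos]
  rw [List.take_add_one]
  simp [hi]

theorem pos_take (l : List (Step n)) {i j : ℕ} (hi : i ≤ j) : pos (l.take j) i = pos l i := by
  simp [pos, List.take_take, min_eq_left hi]

theorem ept_take (l : List (Step n)) (i : ℕ) : ept (l.take i) = pos l i := rfl

theorem pos_drop (l : List (Step n)) {i : ℕ} (hi : i ≤ l.length) (j : ℕ) :
    pos (l.drop i) j = pos l (i + j) - pos l i := by
  have h := pos_append_right (l.take i) (l.drop i) j
  rw [List.take_append_drop, List.length_take, min_eq_left hi, ept_take] at h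
  rw [h]; abel

theorem ept_drop (l : List (Step n)) {i : ℕ} (hi : i ≤ l.length) :
    ept (l.drop i) = ept l - pos l i := by
  have h := ept_append (l.take i) (l.drop i)
  rw [List.take_append_drop, ept_take] at h
  rw [h]; abel

theorem ept_flatten (L : List (List (Step n))) : ept L.flatten = (L.map ept).sum := by
  induction L with
  | nil => simp
  | cons a L ih => simp [ept_append, ih]

theorem vec_apply_abs (s : Step n) (k : Fin n) : |vec s k| ≤ 1 := by
  obtain ⟨j, b⟩ := s
  cases b <;> by_cases h : k = j <;> simp [vec, Pi.single_apply, h]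

theorem abs_pos_apply_le (l : List (Step n)) (i : ℕ) (k : Fin n) : |pos l i k| ≤ i := by
  induction i with
  | zero => simp
  | succ i ih =>
    rcases lt_or_ge i l.length with h | h
    · rw [pos_succ l h]
      have := vec_apply_abs (l[i]) k
      have h2 : |(pos l i + vec l[i]) k| ≤ |pos l i k| + |vec l[i] k| := by
        rw [Pi.add_apply]; exact abs_add_le _ _
      push_cast
      linarith
    · rw [pos_of_length_le l (h.trans (Nat.le_succ i)), ← pos_of_length_le l h]
      push_cast
      linarith

theorem abs_ept_apply_le (l : List (Step n)) (k : Fin n) : |ept l k| ≤ l.length := by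
  rw [← pos_length]; exact abs_pos_apply_le _ _ _

theorem SA_nil : SA ([] : List (Step n)) := by
  intro i hi j hj _
  simp at hi hj
  omega

theorem SA.take {l : List (Step n)} (h : SA l) (i : ℕ) : SA (l.take i) := by
  intro a ha b hb hab
  rw [List.length_take] at ha hb
  rw [pos_take l (by omega), pos_take l (by omega)] at hab
  exact h a (by omega) b (by omega) hab

theorem SA.drop {l : List (Step n)} (h : SA l) (i : ℕ) : SA (l.drop i) := by
  rcases le_or_gt i l.length with hi | hi
  · intro a ha b hb hab
    rw [List.length_drop] at ha hb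
    rw [pos_drop l hi, pos_drop l hi] at hab
    have := h (i + a) (by omega) (i + b) (by omega) (sub_left_injective hab)
    omega
  · rw [List.drop_eq_nil_of_le hi.le]
    exact SA_nil

/-! ### weights of sets of walks -/

theorem W_mono (z : ENNReal) {S T : Set (List (Step n))} (h : S ⊆ T) : W z S ≤ W z T := by
  exact ENNReal.tsum_mono_subtype (fun l : List (Step n) => z ^ l.length) h

theorem W_union_le (z : ENNReal) (S T : Set (List (Step n))) : W z (S ∪ T) ≤ W z S + W z T := by
  exact ENNReal.tsum_union_le (fun l : List (Step n) => z ^ l.length) S T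

theorem sum_le_W (z : ENNReal) {S : Set (List (Step n))} (F : Finset (List (Step n)))
    (h : ∀ l ∈ F, l ∈ S) : ∑ l ∈ F, z ^ l.length ≤ W z S := by
  calc ∑ l ∈ F, z ^ l.length = W z (F : Set (List (Step n))) := by
        unfold W
        rw [← Finset.tsum_subtype]
        rfl
    _ ≤ W z S := W_mono z (fun l hl => h l hl)

theorem W_le_of_sum_le (z : ENNReal) {S : Set (List (Step n))} (c : ENNReal)
    (h : ∀ F : Finset (List (Step n)), (∀ l ∈ F, l ∈ S) → ∑ l ∈ F, z ^ l.length ≤ c) :
    W z S ≤ c := by
  unfold W
  rw [ENNReal.tsum_eq_iSup_sum]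
  refine iSup_le fun F => ?_
  have := h (F.map (Function.Embedding.subtype _)) (by
    intro l hl
    obtain ⟨x, _, rfl⟩ := Finset.mem_map.1 hl
    exact x.2)
  rwa [Finset.sum_map] at this

/-- a product of weights is at most the weight of the image of an injective length additive map -/
theorem W_mul_le (z : ENNReal) {S T U : Set (List (Step n))}
    (F : List (Step n) → List (Step n) → List (Step n)) (hF : ∀ a ∈ S, ∀ b ∈ T, F a b ∈ U)
    (hlen : ∀ a ∈ S, ∀ b ∈ T, (F a b).length = a.length + b.length)
    (hinj : ∀ a ∈ S, ∀ b ∈ T, ∀ a' ∈ S, ∀ b' ∈ T, F a b = F a' b' → a = a' ∧ b = b') :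
    W z S * W z T ≤ W z U := by
  unfold W
  rw [← ENNReal.tsum_mul_right]
  simp_rw [← ENNReal.tsum_mul_left]
  rw [← ENNReal.tsum_prod (f := fun (a : S) (b : T) =>
    z ^ (a : List (Step n)).length * z ^ (b : List (Step n)).length)]
  let G : S × T → U := fun p => ⟨F p.1 p.2, hF _ p.1.2 _ p.2.2⟩
  have hG : Function.Injective G := by
    rintro ⟨⟨a, ha⟩, ⟨b, hb⟩⟩ ⟨⟨a', ha'⟩, ⟨b', hb'⟩⟩ h
    have h1 : F a b = F a' b' := congrArg Subtype.val h
    obtain ⟨rfl, rfl⟩ := hinj a ha b hb a' ha' b' hb' h1
    rfl
  calc (∑' p : S × T, z ^ (p.1 : List (Step n)).length * z ^ (p.2 : List (Step n)).length)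
      = ∑' p : S × T, z ^ ((G p : U) : List (Step n)).length := by
        apply tsum_congr
        rintro ⟨⟨a, ha⟩, ⟨b, hb⟩⟩
        rw [← pow_add]
        congr 1
        exact (hlen a ha b hb).symm
    _ ≤ ∑' l : U, z ^ (l : List (Step n)).length :=
        ENNReal.tsum_comp_le_tsum_of_injective hG (fun l : U => z ^ (l : List (Step n)).length)

/-- the weight of a set which injects into a product, length additive up to the constant `c` -/
theorem W_le_mul (z : ENNReal) (c : ℕ) {S T U : Set (List (Step n))}
    (G : List (Step n) → List (Step n) × List (Step n))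
    (hG : ∀ l ∈ U, (G l).1 ∈ S ∧ (G l).2 ∈ T)
    (hlen : ∀ l ∈ U, (G l).1.length + (G l).2.length = l.length + c)
    (hinj : ∀ l ∈ U, ∀ l' ∈ U, G l = G l' → l = l') :
    z ^ c * W z U ≤ W z S * W z T := by
  unfold W
  rw [← ENNReal.tsum_mul_left, ← ENNReal.tsum_mul_right]
  simp_rw [← ENNReal.tsum_mul_left]
  rw [← ENNReal.tsum_prod (f := fun (a : S) (b : T) =>
    z ^ (a : List (Step n)).length * z ^ (b : List (Step n)).length)]
  let F : U → S × T := fun l => (⟨(G l).1, (hG _ l.2).1⟩, ⟨(G l).2, (hG _ l.2).2⟩)
  have hF : Function.Injective F := by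
    rintro ⟨l, hl⟩ ⟨l', hl'⟩ h
    have h1 : (G l).1 = (G l').1 := congrArg (fun p => ((p.1 : S) : List (Step n))) h
    have h2 : (G l).2 = (G l').2 := congrArg (fun p => ((p.2 : T) : List (Step n))) h
    exact Subtype.ext (hinj l hl l' hl' (Prod.ext h1 h2))
  calc (∑' l : U, z ^ c * z ^ (l : List (Step n)).length)
      = ∑' l : U, z ^ ((F l).1 : List (Step n)).length * z ^ ((F l).2 : List (Step n)).length := by
        apply tsum_congr
        rintro ⟨l, hl⟩
        rw [← pow_add, ← pow_add]
        congr 1
        have := hlen l hl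
        simp only [F]
        omega
    _ ≤ ∑' p : S × T, z ^ (p.1 : List (Step n)).length * z ^ (p.2 : List (Step n)).length :=
        ENNReal.tsum_comp_le_tsum_of_injective hF
          (fun p : S × T => z ^ (p.1 : List (Step n)).length * z ^ (p.2 : List (Step n)).length)

/-- passage to the limit `z → z₀` from below -/
theorem W_le_of_forall_lt (z₀ : ENNReal) (hz₀ : 0 < z₀) (hz₁ : z₀ ≠ ⊤) {S : Set (List (Step n))}
    (c : ENNReal) (h : ∀ z < z₀, W z S ≤ c) : W z₀ S ≤ c := by
  apply W_le_of_sum_le
  intro F hF
  have hcont : ContinuousWithinAt (fun z : ENNReal => ∑ l ∈ F, z ^ l.length) (Set.Iio z₀) z₀ := by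
    apply Continuous.continuousWithinAt
    exact continuous_finset_sum _ fun l _ => ENNReal.continuous_pow _
  have hne : (𝓝[<] z₀).NeBot := by
    exact nhdsLT_neBot_of_exists_lt ⟨0, hz₀⟩
  refine le_of_tendsto hcont ?_
  filter_upwards [self_mem_nhdsWithin] with z hz
  exact (sum_le_W z F hF).trans (h z hz)

end Pool.Agent.Helper3.HW
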