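import Pool.Agent.Helper3.HW.Basic

/-! # Statements of the modules. A module `Mx` proves `theorem mX (deps) : StX`. -/

set_option autoImplicit false

open Finset Filter Topology

namespace Pool.Agent.Helper3.HW

/-! ## M1 -/

def St1 : Prop := ∀ k n : ℕ, C k n = Set.ncard {l : List (Step k) | SA l ∧ l.length = n}

/-! ## M2 -/

def St2a : Prop := ∀ k : ℕ, 1 ≤ k → 0 < mu k ∧ mu k ≤ 2 * k

def St2b : Prop := ∀ (k n : ℕ) (z : ENNReal), (C k n : ENNReal) * z ^ n ≤ W z {l : List (Step k) | SA l}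

def St2c : Prop := ∀ (k : ℕ), 1 ≤ k → ∀ z : ENNReal, z < ENNReal.ofReal (1 / mu k) →
    W z {l : List (Step k) | SA l} < ⊤

/-! ## M4 -/

def St4a : Prop := ∀ (d : ℕ) (h : (Fin (d + 2) → ℤ) →+ ℤ) (a b : List (Step (d + 2))), Br h a →
    Br h b → Br h (a ++ b)

def St4b : Prop := ∀ (d : ℕ) (h : (Fin (d + 2) → ℤ) →+ ℤ) (A : ℤ), 0 < A →
    W (ENNReal.ofReal (1 / mu (d + 2))) (BS h A) ≤ 1

/-! ## M5 -/

def St5a : Prop := ∀ (d : ℕ) (l : List (Step (d + 2))), Br (H0 d) l → ∀ i, i ≤ l.length →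
    Cut l i → Br (H0 d) (l.take i) ∧ Br (H0 d) (l.drop i)

def St5b : Prop := ∀ (d : ℕ) (L : List (List (Step (d + 2)))), (∀ a ∈ L, Irr a) →
    Br (H0 d) L.flatten

def St5c : Prop := ∀ (d : ℕ) (l : List (Step (d + 2))), Br (H0 d) l →
    ∃ L : List (List (Step (d + 2))), (∀ a ∈ L, Irr a) ∧ L.flatten = l

def St5d : Prop := ∀ (d : ℕ) (L L' : List (List (Step (d + 2)))), (∀ a ∈ L, Irr a) →
    (∀ a ∈ L', Irr a) → L.flatten = L'.flatten → L = L'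

def St5e : Prop := ∀ d : ℕ, Irr (E0 d)

/-! ## M7 -/

def St7a : Prop := ∀ (d : ℕ) (z : ENNReal), W z {l : List (Step (d + 2)) | Br (H0 d) l} ≤
      (1 - W z {l : List (Step (d + 2)) | Irr l})⁻¹

def St7b : Prop := ∀ (d : ℕ) (z : ENNReal), z < ENNReal.ofReal (1 / mu (d + 2)) →
    W z {l : List (Step (d + 2)) | Irr l} < 1

def St7c : Prop := ∀ (d m : ℕ), ∑ a ∈ I d m, (1 / mu (d + 2)) ^ a.length ≤ (1 : ℝ)

def St7d : Prop := ∀ (d : ℕ) (z : ℝ), 0 ≤ z → (∀ m, ∑ a ∈ I d m, z ^ a.length ≤ 1) → ∀ N : ℕ,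
    1 ≤ N → ∀ M : ℕ,
    ∑ a ∈ I d M, (z * Real.exp (-(1 / (N : ℝ)))) ^ a.length ≤ 1 - GN d z N / (2 * N)

/-! ## M8 -/

def St8a : Prop := ∀ (d : ℕ) (z : ENNReal) (A : ℕ),
    W z (HSA d (A + 1)) ≤ (1 + W z (BS (H0 d) (A + 1))) * W z (HSA d A)

def St8b : Prop := ∀ (d : ℕ) (z : ENNReal), W z {l : List (Step (d + 2)) | Br (H0 d) l} ≠ ⊤ →
    W z {l : List (Step (d + 2)) | HS l} ≤
      ENNReal.ofReal (Real.exp (W z {l : List (Step (d + 2)) | Br (H0 d) l}).toReal)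

def St8c : Prop := ∀ (d : ℕ) (z : ENNReal),
    z * W z {l : List (Step (d + 2)) | SA l} ≤ W z {l : List (Step (d + 2)) | HS l} ^ 2

/-! ## M9 -/

def St9 : Prop := ∀ (d X : ℕ) (S : Set (List (Step (d + 2)))),
    (∀ l ∈ S, Cone l ∧ H0 d (ept l) ≤ X) → W (ENNReal.ofReal (1 / mu (d + 2))) S ^ 2 ≤ 4 * X

/-! ## M10 -/

def St10 : Prop := ∀ (d : ℕ) (z : ℝ), 0 ≤ z → ∀ n t : ℕ, 0 < t →
    (∀ i < n, 0 ≤ Lam d z (t + i)) → ∀ y : ℤ, 4 * |y| < t →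
    (∏ i ∈ range n, Lam d z (t + i)) * Real.cos (2 * Real.pi * y / t) ≤ V d z n t y

/-! ## M11 -/

def St11 : Prop := ∀ (d : ℕ) (z : ℝ), 0 ≤ z → (∀ m, ∑ a ∈ I d m, z ^ a.length ≤ 1) →
    ∀ N D n : ℕ, 1 ≤ N → 21 * GN d z N ≤ D → D + n ≤ 8 * N →
    Real.exp (-(26 * GN d z N)) ≤ V d z n D 0

/-! ## M12 -/

def St12 : Prop := ∀ (d D : ℕ), 1 ≤ D → ∀ A B : List (List (Step (d + 2))), Good D 0 A →
    Good D 0 B → A.length = B.length → Cone (glue D A B).flatten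

/-! ## M13 -/

def St13a : Prop := ∀ (d n t : ℕ) (y : ℤ),
    {L : List (List (Step (d + 2))) | Good t y L ∧ L.length = n}.Finite

def St13b : Prop := ∀ (d : ℕ) (z : ℝ) (n t : ℕ) (y : ℤ)
    (F : Finset (List (List (Step (d + 2))))), (∀ L, L ∈ F ↔ Good t y L ∧ L.length = n) →
    V d z n t y = ∑ L ∈ F, wt z L

def St13c : Prop := ∀ (d : ℕ) (z : ℝ), 0 ≤ z → (∀ m, ∑ a ∈ I d m, z ^ a.length ≤ 1) →
    ∀ (N n t : ℕ) (y : ℤ), t + n ≤ 8 * N →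
    ∀ F : Finset (List (List (Step (d + 2)))), (∀ L, L ∈ F ↔ Good t y L ∧ L.length = n) →
    ∑ L ∈ F, wt z L * ((L.map List.length).sum : ℝ) ≤ n * GN d z N

/-! ## M14 -/

def St14 : Prop := ∀ (d : ℕ) (z : ℝ), 0 ≤ z → (∀ m, ∑ a ∈ I d m, z ^ a.length ≤ 1) →
    ∀ N D a b X : ℕ, 1 ≤ D → D + b ≤ 8 * N → 0 < X →
    ENNReal.ofReal (∑ n ∈ Finset.Ico a b,
      z ^ (2 * D) * (V d z n D 0 ^ 2 - 2 * n * GN d z N / X)) ≤
      W (ENNReal.ofReal z) {l : List (Step (d + 2)) | Cone l ∧ H0 d (ept l) ≤ (X + 2 * D : ℕ)}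

/-! ## M15 -/

def St15 : Prop := ∀ d : ℕ, ∃ c : ℝ, 0 < c ∧ ∀ N : ℕ, 1 ≤ N →
    c * Real.log N ≤ GN d (1 / mu (d + 2)) N

/-! ## M16 -/

def St16a : Prop := ∀ d N n : ℕ, 1 ≤ N → 0 < GN d (1 / mu (d + 2)) N →
    (C (d + 2) n : ℝ) ≤ mu (d + 2) ^ n * (mu (d + 2) * Real.exp 1) *
      Real.exp (n / N + 4 * N / GN d (1 / mu (d + 2)) N)

def St16b : Prop := ∀ k : ℕ, 2 ≤ k → ∃ K : ℝ, ∀ n : ℕ, 2 ≤ n →
    r k n ≤ Real.exp (K * Real.sqrt (n / Real.log n))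

end Pool.Agent.Helper3.HW
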